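import Mathlib
import Pool.Agent.Run7.h397.Geo

/-!
# Flips towards Hamiltonian triangulations: definitions

`P : V → Pt` is a finite set of points of the plane in general position, indexed by `V`.
A triangulation is a maximal plane (crossing-free) straight-line graph.
All numbers of edges are numbers of ORDERED pairs (twice the number of edges).
-/

set_option autoImplicit false

namespace Run7.h397.HT

open Run7.h397

variable {V : Type}

/-- General position: the points are different and no three of them are on a line. -/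
structure GP (P : V → Pt) : Prop where
  inj : Function.Injective P
  col : ∀ i j k, i ≠ j → i ≠ k → j ≠ k → orient (P i) (P j) (P k) ≠ 0

/-- Different first coordinates. -/
def DX (P : V → Pt) : Prop := ∀ i j, i ≠ j → (P i).1 ≠ (P j).1

/-- The segments `i j` and `k l` cross. -/
def X (P : V → Pt) (i j k l : V) : Prop := Cr (P i) (P j) (P k) (P l)

/-- Plane straight-line graphs. -/
def Plane (P : V → Pt) (T : SimpleGraph V) : Prop :=
  ∀ i j k l, T.Adj i j → T.Adj k l → ¬ X P i j k l

/-- Triangulations: maximal plane graphs. -/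
def IsTri (P : V → Pt) (T : SimpleGraph V) : Prop :=
  Plane P T ∧ ∀ i j, i ≠ j → (∀ k l, T.Adj k l → ¬ X P i j k l) → T.Adj i j

/-- `x` is not strictly inside the triangle `a b c`, for all points `x`. -/
def Emp (P : V → Pt) (a b c : V) : Prop := ∀ x, ¬ InTri (P a) (P b) (P c) (P x)

/-- `a b c` is a face of the triangulation `T`. -/
def Face (P : V → Pt) (T : SimpleGraph V) (a b c : V) : Prop :=
  T.Adj a b ∧ T.Adj a c ∧ T.Adj b c ∧ Emp P a b c

/-- `T₁` arises from `T` by the flip of the edge `a b` into `c d`. -/
def FlipAt (T T₁ : SimpleGraph V) (a b c d : V) : Prop :=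
  T.Adj a b ∧ ¬ T.Adj c d ∧ c ≠ d ∧
    ∀ i j, T₁.Adj i j ↔ (T.Adj i j ∧ s(i, j) ≠ s(a, b)) ∨ s(i, j) = s(c, d)

/-- A flip: two triangulations which differ in one edge. -/
def Flip (P : V → Pt) (T T₁ : SimpleGraph V) : Prop :=
  IsTri P T ∧ IsTri P T₁ ∧ ∃ a b c d, FlipAt T T₁ a b c d

/-- `T'` can be reached from `T` by `k` flips. -/
inductive FlipSeq (P : V → Pt) : ℕ → SimpleGraph V → SimpleGraph V → Prop
  | refl (T : SimpleGraph V) : FlipSeq P 0 T T
  | step {k : ℕ} {T T₁ T₂ : SimpleGraph V} : Flip P T T₁ → FlipSeq P k T₁ T₂ → FlipSeq P (k + 1) T T₂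

open Classical in
/-- The edges `(k, l)` of `T` (ordered) which cross `i j`. -/
noncomputable def xs [Fintype V] (P : V → Pt) (T : SimpleGraph V) (i j : V) : Finset (V × V) :=
  Finset.univ.filter fun e => T.Adj e.1 e.2 ∧ X P i j e.1 e.2

/-- The number of the edges (ordered) of `T` which cross `i j`. -/
noncomputable def xn [Fintype V] (P : V → Pt) (T : SimpleGraph V) (i j : V) : ℕ := (xs P T i j).card

open Classical in
/-- The ordered edges of `T`. -/
noncomputable def es [Fintype V] (T : SimpleGraph V) : Finset (V × V) :=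
  Finset.univ.filter fun e => T.Adj e.1 e.2

/-- The number of crossings of the edges (ordered) of `T` and of `T'`. -/
noncomputable def cr [Fintype V] (P : V → Pt) (T T' : SimpleGraph V) : ℕ :=
  ∑ e ∈ es T, xn P T' e.1 e.2

/-- `a b` is an edge of `T` which is crossed by a positive number of edges of `T'`, the largest
number for all edges of `T`. -/
def MaxE [Fintype V] (P : V → Pt) (T T' : SimpleGraph V) (a b : V) : Prop :=
  T.Adj a b ∧ 0 < xn P T' a b ∧ ∀ i j, T.Adj i j → xn P T' i j ≤ xn P T' a b

end Run7.h397.HT
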