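import Pool.Agent.Run7.h397.HT.Defs

/-!
# Flips towards Hamiltonian triangulations: the pieces

Goal (MP_f059c0_co): for every `ε > 0` there is `C` such that every triangulation of every set of `n`
points in general position can be transformed by at most `ε n ^ 2` flips into a triangulation which
has a closed walk of length at most `n + C` through all the vertices.

Every `S_...` is a closed proposition with a complete proof in its comment.
All are independent of each other (the hypotheses of a piece are the other `S_...` it may use).

Tools in `Pool/Agent/Run7/h397/Geo.lean`: `orient` with its symmetries, `bary_x/y/z`, `Cr` with its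
symmetries, `InTri` with its symmetries, and `tri_exit`: a segment `u v` which crosses the side `x y` of a
triangle `x y z` and has no end strictly inside crosses exactly one of the other two sides (if
its ends are not on the lines of the sides: so in general position the only other possibility is that it
ends at `z`).

A frequently used identity, for vectors of the plane, with `[p,q] = p.1 q.2 - p.2 q.1`:
`[a,b][c,d] - [a,c][b,d] + [a,d][b,c] = 0`; and for a linear functional `ℓ`:
`ℓ(b)[a,c] = ℓ(a)[b,c] + ℓ(c)[a,b]` (transitivity of the order by angles in a half plane `ℓ > 0`).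
-/

set_option autoImplicit false

namespace Run7.h397.HT

open Run7.h397

/-- The cross product. -/
def crs (p q : Pt) : ℝ := p.1 * q.2 - p.2 * q.1

/-- **CC** (corner). The segment `x l` leaves the triangle `x y z` through `y z`, and `u v` crosses `x y` and
`x z` (or crosses `x y` and ends at `z`). Then `u v` crosses `x l`.

Proof. `G p = orient u v p`, `H p = orient x l p`. The point `m` where `x l` meets `y z` is a convex combination of
`y, z`, so `G m` has the sign opposite to `G x`; `l` is beyond `m`: `G x * G l < 0`. The points where `u v` meets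
`x y`, `x z` have the signs of `H y`, `H z`, which are opposite, so `H u * H v < 0`. -/
def S_CC : Prop := ∀ x y z l u v : Pt, orient x y z ≠ 0 → Cr y z x l → Cr x y u v →
  (Cr x z u v ∨ z = u ∨ z = v) → Cr x l u v

/-- **GAP**. If a point is in an open half plane with `a` on its boundary, then `a` has a neighbour in this
half plane. `ℓ x = α (x.1 - a.1) + β (x.2 - a.2)`.

Proof. Suppose `a p` is not an edge (`ℓ p > 0`); by maximality edges of `T` cross it. Let `u₀ v₀` be the one which meets
`a p` closest to `a` (parameter `t = orient k l a / (orient k l a - orient k l p)` minimal), at the point `m`. As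
`ℓ m > 0`, one of the ends, say `v₀`, has `ℓ v₀ > 0`. Let `s = ± 1` be the sign of `orient a p v₀`. Let
`S` be the set of the vertices `x` such that `x = v₀` or (`0 < s orient a p x`, `0 < s orient a x v₀` and
`0 < orient u₀ v₀ x * orient u₀ v₀ a`): the points in the triangle `a m v₀`. They have `ℓ x > 0`, because `x - a` is a positive
combination of `p - a` and `v₀ - a`. Let `v ∈ S` minimise `s orient a p x / ℓ x`: then all other `x ∈ S` have
`s orient a x v < 0` or `=`, i.e. `v` is the first one seen from `a`, turning from `a p` to `a v₀`.
Claim: `a v` is an edge. If not, some edge `h = x y` crosses `a v` at a point `c₀`, where `x` is on the side of `p`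
(`s orient a v x < 0`). `c₀` is strictly on the side of `a` of the line `u₀ v₀`.
* `0 < s orient a p x`, `x` on the side of `a` of the line `u₀ v₀`: then `x ∈ S` contradicts the minimality (`x = v₀` too).
* `0 ≤ s orient a p x` (`x = p` possible), `x` on the other side of the line `u₀ v₀`: `c₀ x` meets the line `u₀ v₀` between the
  rays `a p` and `a v`, that is inside the segment `u₀ v₀`: `h` crosses `u₀ v₀`, both are edges, a contradiction.
* `s orient a p x < 0`: `h` meets the line `a p` at a point `m₂` of the ray `a p`. If `m₂` is closer to `a` than `m`, then `h`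
  crosses `a p` closer to `a` than `u₀ v₀`: contradiction. Otherwise `c₀ m₂` meets the segment `m v₀`, and `h` crosses
  `u₀ v₀` (or `h = u₀ v₀`, which is impossible since `c₀` is not on the line `u₀ v₀`). -/
def S_GAP : Prop := ∀ (V : Type) [Fintype V] (P : V → Pt), GP P → ∀ T, IsTri P T →
  ∀ (a p : V) (α β : ℝ), 0 < α * ((P p).1 - (P a).1) + β * ((P p).2 - (P a).2) →
    ∃ r, T.Adj a r ∧ 0 < α * ((P r).1 - (P a).1) + β * ((P r).2 - (P a).2)

/-- **FACE**. Every edge has an empty triangle of `T` on each side on which there are points.

Proof. By GAP (`ℓ x = orient a b x`) `a` has a neighbour `r` with `orient a b r > 0`; let `c` be the first of them: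
`orient a c r > 0` for all the others. (1) The triangle `a b c` is empty. Let `S` be `{c} ∪` the points inside, and let
`h ∈ S` be the first seen from `b` (turning from `b a` to `b c`): `orient b x h > 0` for the other `x ∈ S`. If `h = c` we are done.
Otherwise `h` is inside, `a h` is not an edge (choice of `c`), so an edge `g = u v` crosses `a h`, `orient a h u < 0 < orient a h v`.
The triangle `a b h` is empty (choice of `h`), and `g` does not cross `a b`, so by `tri_exit` `g` crosses `b h` or `u = b`. With
`f x = orient b h x`: `f a > 0`, `f c < 0`, `f u ≤ 0`, so `f v > 0`. With `G x = orient u v x`: `G a`, `G h` have opposite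
signs, `G b` has the sign of `G a` or `G b = 0`, and `h` is a convex combination of `a, b, c`; so `G c` has the
sign of `G h`. If `orient a c v < 0`, then `v` is in the angle `h a c` and `f v > 0` puts it inside `a h c`, so inside `a b c`
with `f v > 0`, a contradiction to the choice of `h`. So `orient a c v > 0`, and `g` crosses the edge `a c`: contradiction.
(2) `b c` is an edge: an edge `g` crossing `b c` would cross `a b` or `a c` (`tri_exit`), or end at `a`, and then its other
end would be a neighbour of `a` before `c`. -/
def S_FACE : Prop := ∀ (V : Type) [Fintype V] (P : V → Pt), GP P → ∀ T, IsTri P T →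
  ∀ a b p, T.Adj a b → 0 < orient (P a) (P b) (P p) → ∃ c, 0 < orient (P a) (P b) (P c) ∧ Face P T a b c

/-- **SEC**. If `a b` is not an edge, then its initial part at `a` is in a face `a u v` of `T`.

Proof. An edge crosses `a b`, so there are points on both sides of `a b`; by GAP `a` has neighbours on both sides;
let `v` be the first one to the left of `a b` (`orient a b v > 0`, the others `r` have `orient a v r > 0`), `u` the first one to the
right. Apply FACE to the edge `a u` and the side of `b`: a face `a u c`, `orient a u c > 0`. If `orient a b c < 0`, then `c` is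
between `u` and `b`, a contradiction. So `c` is to the left; if `c ≠ v`, then `v` is in the angle `u a c`, not inside
the triangle, so `a v` crosses `u c`, a contradiction. So `c = v`. `b` is in the angle `u a v` and not inside
the triangle, so `a b` crosses `u v`. -/
def S_SEC : Prop := ∀ (V : Type) [Fintype V] (P : V → Pt), GP P → ∀ T, IsTri P T →
  ∀ a b, a ≠ b → ¬ T.Adj a b → ∃ u v, Face P T a u v ∧ X P a b u v ∧
    0 < orient (P a) (P u) (P b) ∧ 0 < orient (P a) (P b) (P v) ∧ 0 < orient (P a) (P u) (P v)

/-- **ISEC** (uses CC). Let `a b` be a maximal edge and `a b c` a face of `T`. No neighbour `q` of `a` in `T'` is strictly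
inside the angle `b a c`.

Proof. Otherwise `a q` crosses `b c` (`a b c` is empty). Let an edge `g = k l` of `T'` cross `a b`. By `tri_exit` it crosses `b c`, or it
crosses `a c` or ends at `c`; in the last two cases `g` crosses `a q` by CC, a contradiction (both are edges of `T'`).
So all the edges of `T'` which cross `a b` also cross `b c`, and so does `a q`, which does not cross `a b`. So
`xn P T' b c > xn P T' a b`, a contradiction. -/
def S_ISEC : Prop := ∀ (V : Type) [Fintype V] (P : V → Pt), GP P → ∀ T T', IsTri P T → IsTri P T' →
  ∀ a b c q, MaxE P T T' a b → Face P T a b c → T'.Adj a q →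
    0 < orient (P a) (P b) (P q) * orient (P a) (P b) (P c) →
    0 < orient (P a) (P q) (P c) * orient (P a) (P b) (P c) → False

/-- **CONV** (uses GAP, ISEC). The two faces at a maximal edge form a convex quadrilateral.

Proof. Angle at `a`: suppose `orient a d c < 0`. By GAP for `T'` (`ℓ x = orient a d x`, `ℓ b > 0`) `a` has a `T'`-neighbour `r`,
`orient a d r > 0`; `r ≠ b` as `a b` is crossed by edges of `T'`. If `orient a b r < 0` then `r` is strictly inside the angle
`d a b`, a contradiction to ISEC. If `orient a b r > 0` then `orient a r c > 0`, from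
`[d,b][r,c] = [d,r][b,c] - [d,c][b,r]` (vectors from `a`), and `r` is strictly inside `b a c`: contradiction.
The angle at `b` in the same way. -/
def S_CONV : Prop := ∀ (V : Type) [Fintype V] (P : V → Pt), GP P → ∀ T T', IsTri P T → IsTri P T' →
  ∀ a b c d, MaxE P T T' a b → Face P T a b c → Face P T a b d → 0 < orient (P a) (P b) (P c) →
    orient (P a) (P b) (P d) < 0 → X P a b c d

/-- **LOC** (uses CC, ISEC, SEC). The flip of a maximal edge `a b` into `c d` (`X P a b c d`: the quadrilateral is convex) is
good, or there is another maximal side in both faces.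

Proof. All edges are edges of `T'`; `E, F, AC, BC, AD, BD`: the sets of the edges crossing `ab, cd, ac, bc, ad, bd`.
By ISEC no `T'`-edge from `a` crosses `bc, bd, cd`, none from `b` crosses `ac, ad, cd` (such an edge is strictly inside one of the
two angles; it is not `a b`). The triangles `abc`, `abd` are empty, and so are `acd`, `bcd` (they are in the convex
quadrilateral). So by `tri_exit`: an edge of `E` satisfies exactly one of (in `AC`, in `BC`, ends at `c`) and exactly one of (in `AD`,
in `BD`, ends at `d`); an edge of `AC` is in exactly one of `E`, `BC`; `BC`: one of `E`, `AC`; `AD`: one of `E`, `BD`; `BD`: one of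
`E`, `AD`; an edge of `F` is in exactly one of `AC`, `AD` and in exactly one of `BC`, `BD`. No edge is in `AC`, `BC` and (in `AD` or in `BD` or
ends at `d`), similarly for `c`: the signs at `c`, `d` of the functional of the line contradict that `ab`, `cd` cross.
Numbers: `Na` (`AC` and `AD`), `Nb` (`BC` and `BD`), `Nc` (`AC` and `BC`), `Nd` (`AD` and `BD`), `M1` (`AC` and `BD`), `M2` (`BC` and `AD`),
`Gca`, `Gcb` (edges from `c` in `E` and in `AD`, resp. `BD`), `Gda`, `Gdb` (edges from `d` in `E` and in `AC`, resp. `BC`).
If `cd` is an edge of `T'` then `F` is empty, good. Otherwise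
`|E| = Na + Nb + M1 + M2 + Gca + Gcb + Gda + Gdb`, `|F| = Nc + Nd + M1 + M2`,
`|AC| = Na + M1 + Gda + Nc`, `|BC| = Nb + M2 + Gdb + Nc`, `|AD| = Na + M2 + Gca + Nd`, `|BD| = Nb + M1 + Gcb + Nd`,
the last four are at most `|E|`. `M1 = 0` or `M2 = 0` (such edges would cross). `Nc > 0` implies `Gca = Gcb = 0` and `Nd > 0` implies
`Gda = Gdb = 0` (CC). `A = Na + Gca + Gda ≥ 1`: by SEC for `T'` at `a` towards `b` there is a `T'`-face `a u v` with `u v` in `E`,
`u` on the side of `d`, `v` on the side of `c`; by ISEC `v = c` or `v` is beyond `a c`, and then (`a u v` is empty) `a c` crosses `u v`;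
the same for `u`, `d`. In the same way `B = Nb + Gcb + Gdb ≥ 1`. Suppose the flip is not good: `Nc + Nd ≥ A + B`. If `Nc > 0` then
`Nc ≤ B + M2`, `Nc ≤ A + M1`; if `Nd > 0` then `Nd ≤ B + M1`, `Nd ≤ A + M2`. So `Nc, Nd > 0`, and, if `M2 = 0`,
`Nc = B`, `Nd = A`, so `|AC| = |E| = |BD|`; if `M1 = 0`, `|BC| = |E| = |AD|`. -/
def S_LOC : Prop := ∀ (V : Type) [Fintype V] (P : V → Pt), GP P → ∀ T T', IsTri P T → IsTri P T' →
  ∀ a b c d, MaxE P T T' a b → Face P T a b c → Face P T a b d → 0 < orient (P a) (P b) (P c) →
    orient (P a) (P b) (P d) < 0 → X P a b c d →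
    xn P T' c d < xn P T' a b ∨
      ((xn P T' a c = xn P T' a b ∨ xn P T' b c = xn P T' a b) ∧
       (xn P T' a d = xn P T' a b ∨ xn P T' b d = xn P T' a b))

/-- **TURN**. Abstract lemma on closed strips of triangles.

Proof. Let `s i = crs (b i) (a i)`. If `0 ≤ s i` then `0 < s (i+1)`:
`[a,d][b,a'] = [a',d][b,a] + [a,a'][b,d]`, resp. `[b,d][b',a] = [b',d][b,a] + [b',b][a,d]`. As `s L = s 0`, either all `s i > 0` or
all `s i < 0` (`i ≤ L`). First case: backward induction (`i = L, …, 0`): `0 < [b L, a i]`, `0 < [b i, a L]`, `0 ≤ [a i, a L]`,
`0 ≤ [b L, b i]`, where for `i < L` one of the last two is strict (`a i` is between `b i` and `a (i+1)`: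
`[b_i,a_{i+1}] a_i = [a_i,a_{i+1}] b_i + [b_i,a_i] a_{i+1}`; resp. `b i` is between `b (i+1)` and `a i`). For `i = 0` this contradicts
`a L = a 0`, `b L = b 0`. Second case: forward induction: `0 < [a 0, b i]`, `0 < [a i, b 0]`, `0 ≤ [a 0, a i]`, `0 ≤ [b i, b 0]`, one of the last two
strict for `i > 0`. -/
def S_TURN : Prop := ∀ (a b d : ℕ → Pt) (A : ℕ → Prop) (L : ℕ), 0 < L → a L = a 0 → b L = b 0 →
  (∀ i < L, 0 < crs (a i) (d i) ∧ 0 < crs (b i) (d i)) →
  (∀ i < L, A i → b (i + 1) = b i ∧ 0 < crs (a i) (a (i + 1)) ∧ 0 < crs (a (i + 1)) (d i)) →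
  (∀ i < L, ¬ A i → a (i + 1) = a i ∧ 0 < crs (b (i + 1)) (b i) ∧ 0 < crs (b (i + 1)) (d i)) → False

/-- **STRIP** (uses TURN, FACE, SEC, ISEC). It is impossible that in every face at a maximal edge one of the other two sides
is maximal, too.

Proof. For `s = ± 1` let `Inv s p w z` mean: there are `T'`-neighbours `q₁, q₂` of `w` with `s [q₁,q₂] > 0`, `s [q₁,z] > 0`,
`s [z,q₂] > 0`, `s [q₁,p] ≥ 0`, `s [p,q₂] ≥ 0`, `s [z,p] > 0` (vectors from `w`: `[x,y] = orient w x y`).
* L0: `Inv s p w z → 0 < s orient w z p`.
* L2: if `w z` is maximal, `w z p` is a face and `s orient w z p > 0` then `Inv s p w z`. (SEC for `T'` at `w` towards `z`; by ISEC the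
  `T'`-neighbour on the side of `p` is not strictly inside the angle `z w p`.)
* L1: if `Inv s p w z`, `w z` and `w y` are maximal, `w z y` is a face, `s orient w z y < 0`, then `Inv s p w y`, with the same `q₁, q₂`.
  (By ISEC for `w z`, `q₁` is not strictly inside the angle `y w z`; `y ≠ q₁` since `w y` is crossed by edges of `T'`.)
* L3: if `Inv s p w z`, `w z` is maximal, `w z y` is a face, `s orient w z y < 0`, then `0 < s orient p w y`.
  (`y` is in the closed cone of `q₁, q₂`; transitivity with `ℓ x = s([q₁,x] + [x,q₂])`.)
States: `(w', w, z', z)` with `w z` maximal, `Inv 1 w' w z` and `Inv (-1) z' z w`. There is one: let `w z` be a maximal edge, `w' = z'`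
the apex of its face on the left (L2 twice; there are points on both sides because `w z` is crossed). Next state: `y` is the
apex of the face with `orient w z y < 0`; if `y z` is maximal: `(w, y, z', z)` (`Inv 1 w y z` by L2, `Inv (-1) z' z y` by L1);
otherwise `w y` is maximal: `(w', w, z, y)`. There are finitely many states, so the orbit is periodic from some state on,
and TURN with `a = w - w'`, `b = z - z'`, `d = z - w` gives a contradiction: `[a,d] > 0`, `[b,d] > 0` by L0, `[a,a'] > 0`, `[b',b] > 0` by L3,
`[a',d] > 0`, `[b',d] > 0` from `orient w z y < 0`. -/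
def S_STRIP : Prop := ∀ (V : Type) [Fintype V] (P : V → Pt), GP P → ∀ T T', IsTri P T → IsTri P T' →
  (∃ a b, MaxE P T T' a b) →
  (∀ a b c, MaxE P T T' a b → Face P T a b c →
    xn P T' a c = xn P T' a b ∨ xn P T' b c = xn P T' a b) → False

/-- **FLIP**. Exchange of the diagonals of a convex quadrilateral formed by two faces.

Proof. `T₁ = T - ab + cd`. An edge of `T` which crosses `cd` must end at `a` (triangle `a c d`, empty since the quadrilateral is
convex and `abc`, `abd` are empty; `tri_exit`), and at `b`, so it is `a b`: `T₁` is plane. Maximality: if `i j` crosses no edge of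
`T₁` and does not cross `a b` then it is an edge of `T`, and not `a b`, which crosses `c d`; if it crosses `a b`, then
it does not cross `ac, bc, ad, bd`, so it ends at `c` and at `d`. -/
def S_FLIP : Prop := ∀ (V : Type) [Fintype V] (P : V → Pt), GP P → ∀ T, IsTri P T →
  ∀ a b c d, Face P T a b c → Face P T a b d → X P a b c d → ∃ T₁, FlipAt T T₁ a b c d ∧ IsTri P T₁

/-- **HOS** (theorem of Hanke, Ottmann and Schuierer; uses FACE, CONV, LOC, STRIP, FLIP). The number of flips is at most the
number of crossings.

Proof. Induction on `cr P T T'`. If it is `0` then `T = T'` by maximality. Otherwise there is a maximal edge. By STRIP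
some maximal edge `a b` has a face `a b c` in which no other side is maximal (use `MaxE` for the symmetric pairs, too); there are points on both
sides; by FACE and CONV the two faces at `a b` (the given one may be taken as one of them) form a convex quadrilateral, and by LOC `xn P T' c d < xn P T' a b`. The flip
(FLIP) changes `cr` by `2 xn P T' c d - 2 xn P T' a b < 0`. -/
def S_HOS : Prop := ∀ (V : Type) [Fintype V] (P : V → Pt), GP P → ∀ T T', IsTri P T → IsTri P T' →
  ∃ k ≤ cr P T T', FlipSeq P k T T'

/-- **EDGE** (uses FACE). A triangulation has at most `6 n` edges.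

Proof. If `n ≤ 2` there is at most one edge. Otherwise every edge `a b` is a side of a face `a b c` (there is a point which is
not on the line; FACE). Let `l, m, r` be its vertices in the order of the first coordinates, and let `σ` say whether `m` is below
`l r` or above it. The pair `(m, σ)` determines the face: if `l' m r'` is another face with `m` below `l' r'`, `l' ≠ l`, say
`m l'` is closer to the vertical direction than `m l`, then `m l'` is strictly inside the angle `l m r`, so it crosses `l r`
or `l'` is inside the face. So there are at most `2 n` faces, `6 n` edges, `12 n` ordered ones. -/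
def S_EDGE : Prop := ∀ (V : Type) [Fintype V] (P : V → Pt), GP P → DX P → ∀ T, IsTri P T →
  (es T).card ≤ 12 * Fintype.card V

/-- **NET**. Epsilon-nets for the segments between the points and the edges of a graph.

Proof. `Pool.Agent.NH83.VN.eps_net` (file `Pool/Agent/NH83/VN/HW.lean` of the starting tree) for `Y` = the ordered edges of `T` and the sets
`xs P T i j`. Traces: for `u : Fin m ⊕ Fin m → Y`, `u t = (k_t, l_t)`, the trace of `xs P T i j` is determined by the eight sets of the `t`
with `0 < ± orient k_t l_t i`, `0 < ± orient k_t l_t j`, `0 < ± orient i j k_t`, `0 < ± orient i j l_t`; each is `{t : 0 < ∑ z, F t z * y z}`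
with `z : Fin 3` (`F t` depends on `k_t, l_t`, `y` on `i, j`), so by `Pool.Agent.R35.SignPatterns.card_patterns` there are at most
`∑ k ≤ 3, (2m).choose k ≤ 4 (2m+1)^3` such sets, and at most `(4 (2m+1)^3)^8` traces. Choose `m` with
`(4 (2m+1)^3)^8 2^(-δ m / 2) < δ / 2`. The graph `E` has the edges `a i` and the reversed ones. -/
def S_NET : Prop := ∀ δ : ℝ, 0 < δ → ∃ m : ℕ, ∀ (V : Type) [Fintype V] (P : V → Pt), GP P →
  ∀ T : SimpleGraph V, ∃ E : SimpleGraph V, E ≤ T ∧ (es E).card ≤ m ∧
    ∀ i j, 0 < xn P T i j → δ * (es T).card ≤ xn P T i j → ∃ k l, E.Adj k l ∧ X P i j k l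

/-- **EXT**. Every plane graph is contained in a triangulation. -/
def S_EXT : Prop := ∀ (V : Type) [Fintype V] (P : V → Pt), GP P → ∀ E, Plane P E →
  ∃ T, E ≤ T ∧ IsTri P T

/-! ### Rows -/

/-- The segment `u v` (`u` left of `v`) passes below the point `p`. -/
def Blw {V : Type} (P : V → Pt) (u v p : V) : Prop :=
  (P u).1 < (P p).1 ∧ (P p).1 < (P v).1 ∧ 0 < orient (P u) (P v) (P p)

/-- The height of the line `u v` at the abscissa `x`. -/
noncomputable def hgt {V : Type} (P : V → Pt) (u v : V) (x : ℝ) : ℝ :=
  (P u).2 + (x - (P u).1) * ((P v).2 - (P u).2) / ((P v).1 - (P u).1)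

/-- `k` is the highest edge of `E` below `p` (`none` if there is no edge below `p`). -/
def IsBot {V : Type} (P : V → Pt) (E : SimpleGraph V) (p : V) : Option (V × V) → Prop
  | none => ∀ u v, E.Adj u v → ¬ Blw P u v p
  | some (u, v) => E.Adj u v ∧ Blw P u v p ∧
      ∀ u' v', E.Adj u' v' → Blw P u' v' p → hgt P u' v' (P p).1 ≤ hgt P u v (P p).1

/-- `p` is in the row `k`: the row of the edge `u v` consists of `u`, `v` and of the points directly above `u v`. -/
def InRow {V : Type} (P : V → Pt) (E : SimpleGraph V) (k : Option (V × V)) (p : V) : Prop :=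
  IsBot P E p k ∨ ∃ u v, k = some (u, v) ∧ E.Adj u v ∧ (P u).1 < (P v).1 ∧ (p = u ∨ p = v)

/-- `p`, `q` are consecutive in some row, `p` is left of `q`. -/
def RowAdj {V : Type} (P : V → Pt) (E : SimpleGraph V) (p q : V) : Prop :=
  ∃ k, InRow P E k p ∧ InRow P E k q ∧ (P p).1 < (P q).1 ∧
    ∀ r, InRow P E k r → ¬ ((P p).1 < (P r).1 ∧ (P r).1 < (P q).1)

/-- `E` together with the edges between consecutive points of the rows. -/
def rowG {V : Type} (P : V → Pt) (E : SimpleGraph V) : SimpleGraph V :=
  E ⊔ SimpleGraph.fromRel (RowAdj P E)

/-- **ROWS**. The rows do not cross `E` and do not cross each other.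

Proof. Let `p q` be consecutive in the row `k`, `W` the region between the line of `k` (for `k = none`: no lower bound) and the segment `p q`,
strictly between the abscissae of `p` and `q`.
(W) `W` contains no vertex. Otherwise let `z₀ ∈ W`. We find a vertex of `W` with bottom `k`, a contradiction. If the bottom of `z₀` is not `k`, let
`t₁` be the lowest edge of `E` above `k` at the abscissa of `z₀` (it is below `z₀`). It is a straight line, so on one
side it stays below `p q` as far as it reaches; it cannot reach beyond `q` (or `p`), since it would be between `k` and `q` there, against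
`InRow k q` (if `q` is an end of `k` it would have to cross `k`). So its end `d₁` is in `W`. Among the vertices of `W`
with abscissa between `z₀` (excluded) and `d₁` (included), above `k` and not above `t₁`, let `y` be the closest one to `z₀` (in abscissa). If
the bottom of `y` is not `k`, let `t₂` be the lowest edge above `k` at `y`; it is below `y`, so strictly below `t₁`; it is not present at `z₀`
(`t₁` is the lowest there), and it does not cross `t₁`, so it has an end strictly between `z₀` and `y`, below `t₁`, above `k`: contradiction.
(1) no edge `t` of `E` is strictly between `k` and `p q` at any abscissa strictly between `p` and `q`: otherwise it stays below `p q` on one side; as before it ends in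
`W` or gives a contradiction. In particular `t` does not cross `p q`. (2) Rows: if `p q` (row `k`) and `p' q'` (row `k'`) cross at the abscissa `x₀`, then by (1) `k` and
`k'` are both the highest edge of `E` below the crossing point, so `k = k'`; but two pairs of consecutive points of the same row
do not overlap. -/
def S_ROWS : Prop := ∀ (V : Type) [Fintype V] (P : V → Pt), GP P → DX P → ∀ E, Plane P E →
  Plane P (rowG P E)

/-- **WALK**. A closed walk through all points along the rows. `ρ` is the rightmost and `lam` the leftmost point.

Proof. Every point `p` has exactly one bottom `k` (unique because the edges of `E` do not cross and do not overlap). The points with bottom `none`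
in the order of their abscissae form a path from `lam` to `ρ`; with a walk in `E` from `ρ` to `lam` this is a closed walk
at `ρ`. For every edge `k = (u, v)` of `E`, `u` left of `v`, with points directly above it: `ρ → u` in `E`, `u → p₁ → … → p_j → v → u`, `u → ρ` in `E`. The
concatenation of all these closed walks has length at most `n + (2 N + 2) (#E) + N`. -/
def S_WALK : Prop := ∀ (V : Type) [Fintype V] (P : V → Pt), GP P → DX P → ∀ E T : SimpleGraph V, Plane P E →
  rowG P E ≤ T → ∀ (ρ lam : V) (N : ℕ), (∀ v, v ≠ ρ → (P v).1 < (P ρ).1) → (∀ v, v ≠ lam → (P lam).1 < (P v).1) →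
  (∃ w : E.Walk ρ lam, w.length ≤ N) →
  (∀ u v, E.Adj u v → ∃ w : E.Walk ρ u, w.length ≤ N) →
  ∃ w : T.Walk ρ ρ, (∀ x, x ∈ w.support) ∧ w.length ≤ Fintype.card V + (2 * N + 2) * (es E).card + N

/-- **CONN** (uses GAP, EXT). A plane graph with few edges is contained in a connected plane graph with few edges, containing the
leftmost and the rightmost point.

Proof. Let `Q` be the set of the vertices of `E`, with `lam` and `ρ`; `#Q ≤ (es E).card + 2`. By EXT for the points of `Q` there is a triangulation
`T₀` of `Q` containing `E`; transport it to `V`. By GAP (`α = 1, β = 0`) every point of `Q` except `ρ` has a `T₀`-neighbour to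
its right, so there is a walk to `ρ` of length at most `#Q`. -/
def S_CONN : Prop := ∀ (V : Type) [Fintype V] (P : V → Pt), GP P → DX P → ∀ E, Plane P E →
  ∀ ρ lam : V, (∀ v, v ≠ ρ → (P v).1 < (P ρ).1) → (∀ v, v ≠ lam → (P lam).1 < (P v).1) →
  ∃ E₁, E ≤ E₁ ∧ Plane P E₁ ∧ (es E₁).card ≤ ((es E).card + 2) ^ 2 ∧
    (∃ w : E₁.Walk ρ lam, w.length ≤ (es E).card + 2) ∧
    ∀ u v, E₁.Adj u v → ∃ w : E₁.Walk ρ u, w.length ≤ (es E).card + 2

/-- **MAIN** (uses HOS, EDGE, NET, EXT, ROWS, WALK, CONN).

Proof. Shear the plane so that the abscissae are different (`orient` does not change). `δ = ε / 144`, `E₀` from NET for `T`, `E₁ ⊇ E₀` from CONN,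
`T' ⊇ rowG P E₁` from ROWS and EXT. No edge of `T'` crosses `E₀`, so it crosses less than `δ (es T).card` edges of `T` (or none), and
`cr P T T' = cr P T' T ≤ (es T').card * δ (es T).card ≤ 144 δ n ^ 2` by EDGE. The closed walk by WALK. -/
def S_MAIN : Prop := ∀ ε : ℝ, 0 < ε → ∃ C : ℕ, ∀ (V : Type) [Fintype V] [Nonempty V] (P : V → Pt), GP P →
  ∀ T, IsTri P T → ∃ (k : ℕ) (T' : SimpleGraph V), FlipSeq P k T T' ∧
    (k : ℝ) ≤ ε * (Fintype.card V : ℝ) ^ 2 ∧
    ∃ (v : V) (w : T'.Walk v v), (∀ x, x ∈ w.support) ∧ w.length ≤ Fintype.card V + C

end Run7.h397.HT
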