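import Pool.Agent.Run7.h397.HT.MainCore
import Pool.Agent.Run7.h376.HT.HOS
import Pool.Agent.Run7.h376.HT.EDGE
import Pool.Agent.Run7.h376.HT.EXT
import Pool.Agent.Run7.h376.HT.WALK
import Pool.Agent.Run7.h376.HT.NET
import Pool.Agent.Run7.h651.HT.STRIP
import Pool.Agent.Run7.h651.HT.FLIP

/-!
# The main theorem
-/

set_option autoImplicit false

namespace Run7.h397.HT

theorem main : S_MAIN :=
  main_of (Run7.h376.HT.hos Run7.h651.HT.ISEC.isec Run7.h651.HT.STRIP.strip Run7.h651.HT.FLIP.flip)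
    Run7.h376.HT.edge Run7.h376.HT.net Run7.h376.HT.ext Run7.h376.HT.rows Run7.h376.HT.walk
    Run7.h376.HT.conn

end Run7.h397.HT
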