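import Pool.Agent.Run7.h397.HT.Iface

/-!
# Assembly of the main theorem from the pieces
-/

set_option autoImplicit false

namespace Run7.h397.HT

open Run7.h397


section
variable {V : Type}

/-- Double counting. -/
theorem cr_symm' [Fintype V] (P : V → Pt) (T T' : SimpleGraph V) : cr P T T' = cr P T' T := by
  classical
  have h : ∀ T₁ T₂ : SimpleGraph V, cr P T₁ T₂ =
      ((Finset.univ : Finset ((V × V) × (V × V))).filter
        (fun z => T₁.Adj z.1.1 z.1.2 ∧ T₂.Adj z.2.1 z.2.2 ∧ X P z.1.1 z.1.2 z.2.1 z.2.2)).card := by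
    intro T₁ T₂
    unfold cr xn
    rw [Finset.card_filter, Fintype.sum_prod_type]
    unfold es xs
    rw [Finset.sum_filter]
    refine Finset.sum_congr rfl fun e _ => ?_
    by_cases h1 : T₁.Adj e.1 e.2
    · simp only [h1, if_true, true_and]
      rw [Finset.card_filter]
    · simp [h1]
  rw [h, h]
  refine Finset.card_bij (fun z _ => (z.2, z.1)) ?_ ?_ ?_
  · intro z hz
    simp only [Finset.mem_filter, Finset.mem_univ, true_and] at hz ⊢
    exact ⟨hz.2.1, hz.1, hz.2.2.symm⟩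
  · intro z _ w _ h
    simp only [Prod.mk.injEq] at h
    exact Prod.ext h.2 h.1
  · intro w hw
    simp only [Finset.mem_filter, Finset.mem_univ, true_and] at hw
    refine ⟨(w.2, w.1), ?_, rfl⟩
    simp only [Finset.mem_filter, Finset.mem_univ, true_and]
    exact ⟨hw.2.1, hw.1, hw.2.2.symm⟩

/-- The shear. -/
def shear (t : ℝ) (p : Pt) : Pt := (p.1 + t * p.2, p.2)

theorem orient_shear (t : ℝ) (a b c : Pt) :
    orient (shear t a) (shear t b) (shear t c) = orient a b c := by
  unfold orient shear; ring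

theorem cr_shear (t : ℝ) (a b c d : Pt) :
    Cr (shear t a) (shear t b) (shear t c) (shear t d) ↔ Cr a b c d := by
  unfold Cr; simp only [orient_shear]

theorem gp_shear {P : V → Pt} (hP : GP P) (t : ℝ) : GP (fun v => shear t (P v)) where
  inj := by
    intro i j h
    refine hP.inj ?_
    have h' : shear t (P i) = shear t (P j) := h
    have h2 : (P i).2 = (P j).2 := by
      have := congrArg (fun p : Pt => p.2) h'
      simpa [shear] using this
    have h1 : (P i).1 + t * (P i).2 = (P j).1 + t * (P j).2 := by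
      have := congrArg (fun p : Pt => p.1) h'
      simpa [shear] using this
    rw [h2] at h1
    exact Prod.ext (by linarith) h2
  col := by
    intro i j k h1 h2 h3
    simp only [orient_shear]
    exact hP.col i j k h1 h2 h3

theorem isTri_shear (P : V → Pt) (t : ℝ) (T : SimpleGraph V) :
    IsTri (fun v => shear t (P v)) T ↔ IsTri P T := by
  unfold IsTri Plane X
  simp only [cr_shear]

theorem flipSeq_shear {P : V → Pt} {t : ℝ} {k : ℕ} {T T' : SimpleGraph V}
    (h : FlipSeq (fun v => shear t (P v)) k T T') : FlipSeq P k T T' := by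
  induction h with
  | refl T => exact FlipSeq.refl T
  | step hf _ ih =>
    refine FlipSeq.step ?_ ih
    obtain ⟨h1, h2, h3⟩ := hf
    exact ⟨(isTri_shear P t _).1 h1, (isTri_shear P t _).1 h2, h3⟩

theorem exists_dx [Finite V] {P : V → Pt} (hP : GP P) :
    ∃ t : ℝ, DX (fun v => shear t (P v)) := by
  classical
  have hfin : (⋃ e : V × V, {t : ℝ | e.1 ≠ e.2 ∧ (P e.1).1 + t * (P e.1).2 = (P e.2).1 + t * (P e.2).2}).Finite := by
    refine Set.finite_iUnion fun e => ?_
    refine Set.Subsingleton.finite ?_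
    rintro s ⟨hne, hs⟩ t ⟨_, ht⟩
    by_contra hst
    have h2 : (P e.1).2 = (P e.2).2 := by
      have : (s - t) * ((P e.1).2 - (P e.2).2) = 0 := by linarith
      rcases mul_eq_zero.1 this with h | h
      · exact absurd (sub_eq_zero.1 h) hst
      · linarith
    have h1 : (P e.1).1 = (P e.2).1 := by rw [h2] at hs; linarith
    exact hne (hP.inj (Prod.ext h1 h2))
  obtain ⟨t, ht⟩ := hfin.exists_notMem
  refine ⟨t, fun i j hij h => ht ?_⟩
  refine Set.mem_iUnion.2 ⟨(i, j), hij, h⟩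

theorem exists_right [Fintype V] [Nonempty V] {P : V → Pt} (hD : DX P) :
    ∃ ρ : V, ∀ v, v ≠ ρ → (P v).1 < (P ρ).1 := by
  obtain ⟨ρ, -, h⟩ := Finset.exists_max_image Finset.univ (fun v => (P v).1) Finset.univ_nonempty
  exact ⟨ρ, fun v hv => lt_of_le_of_ne (h v (Finset.mem_univ v)) (hD v ρ hv)⟩

theorem exists_left [Fintype V] [Nonempty V] {P : V → Pt} (hD : DX P) :
    ∃ lam : V, ∀ v, v ≠ lam → (P lam).1 < (P v).1 := by
  obtain ⟨ρ, -, h⟩ := Finset.exists_min_image Finset.univ (fun v => (P v).1) Finset.univ_nonempty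
  exact ⟨ρ, fun v hv => lt_of_le_of_ne (h v (Finset.mem_univ v)) (hD ρ v (Ne.symm hv))⟩

end

theorem main_of (hHOS : S_HOS) (hEDGE : S_EDGE) (hNET : S_NET) (hEXT : S_EXT) (hROWS : S_ROWS)
    (hWALK : S_WALK) (hCONN : S_CONN) : S_MAIN := by
  intro ε hε
  obtain ⟨m, hm⟩ := hNET (ε / 144) (by positivity)
  refine ⟨(2 * (m + 2) + 2) * (m + 2) ^ 2 + (m + 2), ?_⟩
  intro V _ _ P hP T hT
  obtain ⟨t, hD⟩ := exists_dx hP
  set P' : V → Pt := fun v => shear t (P v) with hP'def
  have hP' : GP P' := gp_shear hP t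
  have hT' : IsTri P' T := (isTri_shear P t T).2 hT
  obtain ⟨E, hET, hEm, hE⟩ := hm V P' hP' T
  have hEpl : Plane P' E := fun i j k l h1 h2 => hT'.1 i j k l (hET h1) (hET h2)
  obtain ⟨ρ, hρ⟩ := exists_right hD
  obtain ⟨lam, hlam⟩ := exists_left hD
  obtain ⟨E₁, hEE, hE1pl, hE1c, hw0, hw1⟩ := hCONN V P' hP' hD E hEpl ρ lam hρ hlam
  have hR : Plane P' (rowG P' E₁) := hROWS V P' hP' hD E₁ hE1pl
  obtain ⟨S, hRS, hS⟩ := hEXT V P' hP' (rowG P' E₁) hR
  obtain ⟨k, hk, hseq⟩ := hHOS V P' hP' T S hT' hS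
  refine ⟨k, S, flipSeq_shear hseq, ?_, ?_⟩
  · -- number of flips
    have hnS := hEDGE V P' hP' hD S hS
    have hnT := hEDGE V P' hP' hD T hT'
    have hES : E ≤ S := fun a b h => hRS (Or.inl (hEE h))
    have hx : ∀ e ∈ es S, (xn P' T e.1 e.2 : ℝ) ≤ ε / 144 * ((es T).card : ℝ) := by
      intro e he
      by_contra hlt
      push Not at hlt
      have hpos : 0 < xn P' T e.1 e.2 := by
        have h0 : (0 : ℝ) ≤ ε / 144 * ((es T).card : ℝ) := by positivity
        have : (0 : ℝ) < (xn P' T e.1 e.2 : ℝ) := lt_of_le_of_lt h0 hlt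
        exact_mod_cast this
      obtain ⟨a, b, hab, hX⟩ := hE e.1 e.2 hpos hlt.le
      have heS : S.Adj e.1 e.2 := by
        unfold es at he
        simpa using he
      exact hS.1 e.1 e.2 a b heS (hES hab) hX
    have hcr : (cr P' T S : ℝ) ≤ ((es S).card : ℝ) * (ε / 144 * ((es T).card : ℝ)) := by
      rw [cr_symm']
      unfold cr
      push_cast
      calc ∑ e ∈ es S, (xn P' T e.1 e.2 : ℝ) ≤ ∑ _e ∈ es S, ε / 144 * ((es T).card : ℝ) :=
            Finset.sum_le_sum hx
        _ = ((es S).card : ℝ) * (ε / 144 * ((es T).card : ℝ)) := by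
            rw [Finset.sum_const, nsmul_eq_mul]
    have hk' : (k : ℝ) ≤ (cr P' T S : ℝ) := by exact_mod_cast hk
    have hS' : ((es S).card : ℝ) ≤ 12 * (Fintype.card V : ℝ) := by exact_mod_cast hnS
    have hT'' : ((es T).card : ℝ) ≤ 12 * (Fintype.card V : ℝ) := by exact_mod_cast hnT
    calc (k : ℝ) ≤ ((es S).card : ℝ) * (ε / 144 * ((es T).card : ℝ)) := hk'.trans hcr
      _ ≤ (12 * (Fintype.card V : ℝ)) * (ε / 144 * (12 * (Fintype.card V : ℝ))) := by
          gcongr
      _ = ε * (Fintype.card V : ℝ) ^ 2 := by ring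
  · -- the walk
    obtain ⟨w, hw, hl⟩ := hWALK V P' hP' hD E₁ S hE1pl hRS ρ lam ((es E).card + 2) hρ hlam hw0 hw1
    refine ⟨ρ, w, hw, hl.trans ?_⟩
    have h1 : (es E₁).card ≤ (m + 2) ^ 2 := hE1c.trans (Nat.pow_le_pow_left (by omega) 2)
    have h2 : (2 * ((es E).card + 2) + 2) ≤ 2 * (m + 2) + 2 := by omega
    have h3 := Nat.mul_le_mul h2 h1
    omega

end Run7.h397.HT
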